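import Pool.Agent.U73.RN.Iso
import Pool.Agent.Y796.PA.Pat
import Pool.Agent.H295R2.Iso.B
import Pool.Agent.TH299.RunsZeta

/-!
# Runs of isolated simple critical zeros in short intervals and in almost all very short intervals
-/

set_option autoImplicit false

open Complex Filter Topology Finset MeasureTheory

namespace Pool.Agent.U73.RN

open H370 H295Iso H344 Pool.Agent.H24R3.PairsShort Pool.Agent.Y796.PA

variable {F : ℂ → ℂ}

/-- from the isolated zeros to the runs -/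
theorem runs_of_iso (hF : GoodL F) {T H ρ w p ε : ℝ} (hT : 1 ≤ T) (hH : 0 < H) (hw : 0 ≤ w)
    (m : ℕ) (hε : 0 < ε) (hN : 6 * m / ε + 1 ≤ (NN F T (T + H) : ℝ))
    (hI : (p - ε / (3 + m)) * (NN F T (T + H) : ℝ) ≤ isoN F T H ρ w) {A : ℝ} (hA : 0 < A) :
    (p - m * ((1 - p) / 2) - m / A - ε) * (NN F T (T + H) : ℝ) ≤
        ({t : ℝ | IRunA F ρ w m (A * H / NN F T (T + H)) T (T + H) t}.ncard : ℝ) ∧
    (p - (m + 1) * ((1 - p) / 2) - m / A - ε) * (NN F T (T + H) : ℝ) ≤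
        ({t : ℝ | IRunB F ρ w m (A * H / NN F T (T + H)) T (T + H) t}.ncard : ℝ) := by
  have hm : (0 : ℝ) ≤ m := Nat.cast_nonneg m
  set N : ℝ := (NN F T (T + H) : ℝ) with hNdef
  have hN1 : 0 < N := by
    have : 0 ≤ 6 * (m : ℝ) / ε := by positivity
    linarith
  have hN2 : 3 * (m : ℝ) ≤ ε / 2 * N := by
    have h1 : 6 * (m : ℝ) / ε ≤ N := by linarith
    rw [div_le_iff₀ hε] at h1
    linarith
  have hL : 0 < A * H / N := by positivity
  obtain ⟨h1, h2⟩ := irun_window hF (ρ := ρ) hT (show T ≤ T + H by linarith) hw m hL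
  rw [show T + H - T = H by ring, ← hNdef] at h1 h2
  have hIdef : ((H295Iso.isoSet F T H ρ w).ncard : ℝ) = isoN F T H ρ w := rfl
  rw [hIdef] at h1 h2
  set I0 : ℝ := (isoN F T H ρ w : ℝ) with hI0
  have h3 : (m : ℝ) * H / (A * H / N) = m / A * N := by
    field_simp
  rw [h3] at h1 h2
  have h5 : (1 + (m : ℝ) / 2) * ((p - ε / (3 + m)) * N) ≤ (1 + m / 2) * I0 :=
    mul_le_mul_of_nonneg_left hI (by positivity)
  have h6 : (1 + ((m : ℝ) + 1) / 2) * ((p - ε / (3 + m)) * N) ≤ (1 + (m + 1) / 2) * I0 :=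
    mul_le_mul_of_nonneg_left hI (by positivity)
  have h7 : (1 + ((m : ℝ) + 1) / 2) * (ε / (3 + m)) = ε / 2 := by
    have : (3 : ℝ) + m ≠ 0 := by positivity
    field_simp
    ring
  have h8 : (1 + (m : ℝ) / 2) * (ε / (3 + m)) ≤ ε / 2 := by
    rw [← h7]
    apply mul_le_mul_of_nonneg_right _ (by positivity)
    linarith
  have h9 : (1 + (m : ℝ) / 2) * (ε / (3 + m)) * N ≤ ε / 2 * N :=
    mul_le_mul_of_nonneg_right h8 hN1.le
  have h10 : (1 + ((m : ℝ) + 1) / 2) * (ε / (3 + m)) * N = ε / 2 * N := by rw [h7]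
  constructor
  · refine le_trans ?_ h1
    have e1 : (p - m * ((1 - p) / 2) - m / A - ε) * N =
        (1 + m / 2) * (p * N) - m / 2 * N - m / A * N - ε * N := by ring
    have e2 : I0 - m * (N - I0) / 2 - 3 * m - m / A * N =
        (1 + m / 2) * I0 - m / 2 * N - 3 * m - m / A * N := by ring
    rw [e1, e2]
    have e3 : (1 + (m : ℝ) / 2) * ((p - ε / (3 + m)) * N) =
        (1 + m / 2) * (p * N) - (1 + (m : ℝ) / 2) * (ε / (3 + m)) * N := by ring
    linarith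
  · refine le_trans ?_ h2
    have e1 : (p - (m + 1) * ((1 - p) / 2) - m / A - ε) * N =
        (1 + (m + 1) / 2) * (p * N) - (m + 1) / 2 * N - m / A * N - ε * N := by ring
    have e2 : I0 - (m + 1) * (N - I0) / 2 - 3 * m - m / A * N =
        (1 + (m + 1) / 2) * I0 - (m + 1) / 2 * N - 3 * m - m / A * N := by ring
    rw [e1, e2]
    have e3 : (1 + ((m : ℝ) + 1) / 2) * ((p - ε / (3 + m)) * N) =
        (1 + (m + 1) / 2) * (p * N) - (1 + ((m : ℝ) + 1) / 2) * (ε / (3 + m)) * N := by ring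
    linarith

/-- all short intervals -/
theorem irun_short (hF : GoodL F) {h r ε : ℝ} (hh : 0 < h) (hh1 : h ≤ 1) (hr0 : 0 ≤ r)
    (hr : h * r ≤ 1 / 3) (hε : 0 < ε) (m : ℕ) :
    ∃ T0 : ℝ, 10 ≤ T0 ∧ ∀ T : ℝ, T0 ≤ T → ∀ H : ℝ, T ^ h ≤ H → H ≤ T → ∀ A : ℝ, 0 < A →
      (pd h r - m * ((1 - pd h r) / 2) - m / A - ε) * (NN F T (T + H) : ℝ) ≤
        ({t : ℝ | IRunA F (2 * Real.pi * r / Real.log T) (4 * Real.pi / 5 / (h * Real.log T)) m
          (A * H / NN F T (T + H)) T (T + H) t}.ncard : ℝ) ∧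
      (pd h r - (m + 1) * ((1 - pd h r) / 2) - m / A - ε) * (NN F T (T + H) : ℝ) ≤
        ({t : ℝ | IRunB F (2 * Real.pi * r / Real.log T) (4 * Real.pi / 5 / (h * Real.log T)) m
          (A * H / NN F T (T + H)) T (T + H) t}.ncard : ℝ) := by
  obtain ⟨T1, hT1, h1⟩ := iso_short hF hh hh1 hr0 hr (ε := ε / (3 + m)) (by positivity)
  obtain ⟨T2, -, h2⟩ := Pool.Agent.TH299.RunsL.NN_short_large hF hh hh1 (6 * m / ε + 1)
  refine ⟨max T1 T2, hT1.trans (le_max_left _ _), fun T hT H hH1 hH2 A hA => ?_⟩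
  have hTT1 : T1 ≤ T := (le_max_left _ _).trans hT
  have hT10 : 10 ≤ T := hT1.trans hTT1
  have hH0 : 0 < H := lt_of_lt_of_le (Real.rpow_pos_of_pos (by linarith) _) hH1
  have hlog : 0 < Real.log T := Real.log_pos (by linarith)
  have hpi := Real.pi_pos
  exact runs_of_iso hF (by linarith) hH0 (by positivity) m hε
    (h2 T ((le_max_right _ _).trans hT) H hH1 hH2) (h1 T hTT1 H hH1 hH2) hA

/-- almost all intervals have the expected number of zeros -/
theorem count_aa (hF : GoodL F) (hB : ∀ τ : ℝ, 0 < τ → τ ≤ 1 → Pool.Agent.TH822.DZ.BZr F τ)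
    {η : ℝ} (hη0 : 0 < η) (hη1 : η < 1) :
    AA η (fun T H t => 1 / 2 * (H * Real.log T / (2 * Real.pi)) ≤ (NN F t (t + H) : ℝ)) := by
  have hpi := Real.pi_pos
  refine aa_of_det hF hB hη0 hη1 (h := 1 / 2) (x := 1 / 4) (e := 1 / 2) (T1 := 10) (by linarith)
    (by norm_num) (by norm_num) (by norm_num) fun T hT t ht H hH hg => ?_
  have hlog : 0 < Real.log T := Real.log_pos (by linarith)
  have h5 := (abs_le.mp hg.1).1
  linarith

/-- almost all very short intervals -/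
theorem irun_aa (hF : GoodL F) (hB : ∀ τ : ℝ, 0 < τ → τ ≤ 1 → Pool.Agent.TH822.DZ.BZr F τ)
    {η h r ε : ℝ} (hη0 : 0 < η) (hη1 : η < 1) (hh : 0 < h) (hh1 : 2 * h ≤ 1 + η)
    (hr0 : 0 ≤ r) (hr : h * r ≤ 1 / 3) (hε : 0 < ε) (m : ℕ) :
    AA η (fun T H t => ∀ A : ℝ, 0 < A →
      (pd h r - m * ((1 - pd h r) / 2) - m / A - ε) * (NN F t (t + H) : ℝ) ≤
        ({u : ℝ | IRunA F (2 * Real.pi * r / Real.log T) (4 * Real.pi / 5 / (h * Real.log T)) m
          (A * H / NN F t (t + H)) t (t + H) u}.ncard : ℝ) ∧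
      (pd h r - (m + 1) * ((1 - pd h r) / 2) - m / A - ε) * (NN F t (t + H) : ℝ) ≤
        ({u : ℝ | IRunB F (2 * Real.pi * r / Real.log T) (4 * Real.pi / 5 / (h * Real.log T)) m
          (A * H / NN F t (t + H)) t (t + H) u}.ncard : ℝ)) := by
  have hpi := Real.pi_pos
  have h1 := iso_aa2 hF hB hη0 hη1 hh hh1 hr0 hr (ε := ε / (3 + m)) (by positivity)
  have h2 := count_aa hF hB hη0 hη1
  obtain ⟨T2, hT2⟩ := ((tendsto_rpow_atTop hη0).eventually_ge_atTop
    (4 * Real.pi * (6 * m / ε + 1))).exists_forall_of_atTop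
  refine aa_mono (T1 := max 10 T2) (aa_and h1 h2) ?_
  intro T hT t ht H hH hP A hA
  obtain ⟨hP1, hP2⟩ := hP
  have hT10 : 10 ≤ T := (le_max_left _ _).trans hT
  have hTT2 := hT2 T ((le_max_right _ _).trans hT)
  have hH0 : 0 < H := lt_of_lt_of_le (Real.rpow_pos_of_pos (by linarith) _) hH
  have hlog1 : 1 ≤ Real.log T := by
    rw [Real.le_log_iff_exp_le (by linarith)]
    have := Real.exp_one_lt_d9
    linarith
  have hbig : 6 * (m : ℝ) / ε + 1 ≤ (NN F t (t + H) : ℝ) := by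
    refine le_trans ?_ hP2
    have h3 : 4 * Real.pi * (6 * m / ε + 1) ≤ H * 1 := by linarith
    have h4 : H * 1 ≤ H * Real.log T := mul_le_mul_of_nonneg_left hlog1 hH0.le
    rw [show 1 / 2 * (H * Real.log T / (2 * Real.pi)) = H * Real.log T / (4 * Real.pi) by
      field_simp; ring, le_div_iff₀ (by positivity)]
    linarith
  exact runs_of_iso hF (by linarith) hH0 (by positivity) m hε hbig hP1 hA

end Pool.Agent.U73.RN
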