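import Pool.Agent.U73.RN.Block
import Pool.Agent.TH299.RunsL
import Pool.Agent.H295R2.Iso.A

/-!
# Runs of isolated simple critical zeros of an L-function of degree one

A zero which is simple, on the critical line and alone at its height but not isolated has a partner
at a small distance, and no isolated zero lies between the two; so every block of consecutive
ordinates without an isolated zero costs at least two zeros (with the exception of the blocks which
touch the ends of the window).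
-/

set_option autoImplicit false

open Complex Filter Topology Finset

namespace Pool.Agent.U73.RN

open H370 H295Iso Pool.Agent.TH299.Runs Pool.Agent.TH299.RunsL

/-- there is no other zero of `F` in the box of size `ρ × w` around `1/2 + i x` -/
def Alone (F : ℂ → ℂ) (ρ w x : ℝ) : Prop :=
  ∀ s : ℂ, F s = 0 → 0 < s.re → s.re < 1 → s ≠ 1 / 2 + I * x → |s.im - x| ≤ ρ →
    w < |s.re - 1 / 2|

/-- `t` is the first of `m + 1` consecutive ordinates of zeros in `(a, b]`, at each of which `F` has a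
simple zero on the critical line without another zero in the box of size `ρ × w` around it; the total
length is at most `L` -/
def IRunA (F : ℂ → ℂ) (ρ w : ℝ) (m : ℕ) (L a b t : ℝ) : Prop :=
  ∃ u : Fin (m + 1) → ℝ, StrictMono u ∧ u 0 = t ∧ a < u 0 ∧ u (Fin.last m) ≤ b ∧
    (∀ j, F (1 / 2 + I * u j) = 0 ∧ mult F (1 / 2 + I * u j) = 1 ∧ Alone F ρ w (u j)) ∧
    (∀ s : ℂ, F s = 0 → 0 < s.re → s.re < 1 → u 0 ≤ s.im → s.im ≤ u (Fin.last m) →
      ∃ j, s.im = u j) ∧ u (Fin.last m) - u 0 ≤ L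

/-- the same, and there is no other zero with ordinate in `[u 0, u m]` -/
def IRunB (F : ℂ → ℂ) (ρ w : ℝ) (m : ℕ) (L a b t : ℝ) : Prop :=
  ∃ u : Fin (m + 1) → ℝ, StrictMono u ∧ u 0 = t ∧ a < u 0 ∧ u (Fin.last m) ≤ b ∧
    (∀ j, F (1 / 2 + I * u j) = 0 ∧ mult F (1 / 2 + I * u j) = 1 ∧ Alone F ρ w (u j)) ∧
    (∀ s : ℂ, F s = 0 → 0 < s.re → s.re < 1 → u 0 ≤ s.im → s.im ≤ u (Fin.last m) →
      ∃ j, s = 1 / 2 + I * u j) ∧ u (Fin.last m) - u 0 ≤ L

variable {F : ℂ → ℂ}

/-- the ordinates with their multiplicities (the pointwise form of `TH299.RunsL.core`) -/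
lemma core2 (hF : GoodL F) {a b : ℝ} (ha : 1 ≤ a) :
    ∃ S GA GB : Finset ℝ, ∃ M : ℝ → ℕ, (∀ γ : ℝ, γ ∈ S ↔ ∃ s ∈ zset F a b, s.im = γ) ∧
      (∀ γ : ℝ, γ ∈ GA ↔ (1 / 2 + I * (γ : ℂ)) ∈ zset F a b ∧ mult F (1 / 2 + I * γ) = 1) ∧
      (∀ γ : ℝ, γ ∈ GB ↔ γ ∈ GA ∧ ∀ s ∈ zset F a b, s.im = γ → s = 1 / 2 + I * γ) ∧
      GA ⊆ S ∧ GB ⊆ GA ∧ NN F a b = ∑ γ ∈ S, M γ ∧ (∀ γ ∈ GB, M γ = 1) ∧
      (∀ γ ∈ S, γ ∉ GB → 2 ≤ M γ) ∧ (∀ γ ∈ GA, γ ∉ GB → 3 ≤ M γ) := by
  classical
  have hfin := zset_finite hF a b ha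
  set Z := hfin.toFinset with hZ
  have hmem : ∀ s, s ∈ Z ↔ s ∈ zset F a b := fun s => by rw [hZ, Set.Finite.mem_toFinset]
  set S := Z.image (fun s => s.im) with hS
  set GA : Finset ℝ := S.filter fun γ : ℝ => (1 / 2 + I * (γ : ℂ)) ∈ zset F a b ∧
    mult F (1 / 2 + I * (γ : ℂ)) = 1 with hGA
  set GB : Finset ℝ := GA.filter fun γ : ℝ => ∀ s ∈ zset F a b, s.im = γ → s = 1 / 2 + I * (γ : ℂ) with hGB
  have hSm : ∀ γ : ℝ, γ ∈ S ↔ ∃ s ∈ zset F a b, s.im = γ := by
    intro γ
    rw [hS, Finset.mem_image]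
    constructor
    · rintro ⟨s, hs, h⟩; exact ⟨s, (hmem s).mp hs, h⟩
    · rintro ⟨s, hs, h⟩; exact ⟨s, (hmem s).mpr hs, h⟩
  have hGAm : ∀ γ : ℝ, γ ∈ GA ↔ (1 / 2 + I * (γ : ℂ)) ∈ zset F a b ∧ mult F (1 / 2 + I * γ) = 1 := by
    intro γ
    rw [hGA, Finset.mem_filter]
    refine ⟨fun h => h.2, fun h => ⟨?_, h⟩⟩
    rw [hSm]
    exact ⟨_, h.1, half_im γ⟩
  have hGBm : ∀ γ : ℝ, γ ∈ GB ↔ γ ∈ GA ∧ ∀ s ∈ zset F a b, s.im = γ → s = 1 / 2 + I * γ := by
    intro γ
    rw [hGB, Finset.mem_filter]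
  have hpos : ∀ s ∈ Z, 1 ≤ mult F s := by
    intro s hs
    have := (hmem s).mp hs
    exact Loc.mult_pos' hF (by linarith [this.2.2.1]) this.2.2.2.2
  have hrefl : ∀ s ∈ zset F a b, (1 - (starRingEnd ℂ) s) ∈ zset F a b := by
    rintro s ⟨h1, h2, h3, h4, h5⟩
    have him : (1 - (starRingEnd ℂ) s).im = s.im := by simp
    have hre : (1 - (starRingEnd ℂ) s).re = 1 - s.re := by simp
    refine ⟨by rw [hre]; linarith, by rw [hre]; linarith, by rw [him]; exact h3,
      by rw [him]; exact h4, ?_⟩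
    have hA : AnalyticAt ℂ F s := hF.an s (by linarith)
    have hB : AnalyticAt ℂ F (1 - (starRingEnd ℂ) s) := hF.an _ (by rw [him]; linarith)
    have h6 := hF.symm s h1 h2 (by linarith)
    have h7 : analyticOrderAt F s ≠ 0 := hA.analyticOrderAt_ne_zero.mpr h5
    rw [← h6] at h7
    exact hB.analyticOrderAt_ne_zero.mp h7
  refine ⟨S, GA, GB, M F Z, hSm, hGAm, hGBm, Finset.filter_subset _ _, Finset.filter_subset _ _,
    ?_, ?_, ?_, ?_⟩
  · rw [NN_eq_sum hF a b ha]
    unfold M
    rw [← hZ]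
    exact (Finset.sum_fiberwise_of_maps_to (fun s hs => Finset.mem_image_of_mem _ hs) _).symm
  · intro γ hγ
    have h1 := (hGBm γ).mp hγ
    have h2 := (hGAm γ).mp h1.1
    have h3 : Z.filter (fun s => s.im = γ) = {1 / 2 + I * (γ : ℂ)} := by
      ext s
      rw [Finset.mem_filter, Finset.mem_singleton, hmem]
      constructor
      · rintro ⟨h3, h4⟩
        exact h1.2 s h3 h4
      · rintro rfl
        exact ⟨h2.1, half_im γ⟩
    unfold M
    rw [h3, Finset.sum_singleton]
    exact h2.2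
  · intro γ hγ hB
    obtain ⟨s, hs, him⟩ := (hSm γ).mp hγ
    have h1 : s ∈ Z.filter fun s => s.im = γ := Finset.mem_filter.mpr ⟨(hmem s).mpr hs, him⟩
    by_cases hre : s.re = 1 / 2
    · have h2 : mult F s ≤ M F Z γ := Finset.single_le_sum (f := fun s => mult F s)
        (fun _ _ => Nat.zero_le _) h1
      have h3 := hpos s ((hmem s).mpr hs)
      by_cases h4 : mult F s = 1
      · -- `γ ∈ GA`, and so another zero at the same height
        have hA : γ ∈ GA := by
          rw [hGAm, ← him, ← eq_half hre]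
          exact ⟨hs, h4⟩
        have hnot : ¬ ∀ s ∈ zset F a b, s.im = γ → s = 1 / 2 + I * γ := fun h =>
          hB ((hGBm γ).mpr ⟨hA, h⟩)
        push Not at hnot
        obtain ⟨s1, hs1, him1, hne⟩ := hnot
        have hne' : s ≠ s1 := by
          intro h
          apply hne
          rw [← h, ← him]
          exact eq_half hre
        have hsub : ({s, s1} : Finset ℂ) ⊆ Z.filter fun s => s.im = γ := by
          intro x hx
          simp only [Finset.mem_insert, Finset.mem_singleton] at hx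
          rcases hx with rfl | rfl
          · exact h1
          · exact Finset.mem_filter.mpr ⟨(hmem _).mpr hs1, him1⟩
        have h3 : ∑ x ∈ ({s, s1} : Finset ℂ), 1 ≤ M F Z γ := by
          unfold M
          calc ∑ x ∈ ({s, s1} : Finset ℂ), 1 ≤ ∑ x ∈ ({s, s1} : Finset ℂ), mult F x :=
                Finset.sum_le_sum fun x hx => hpos x (Finset.mem_filter.mp (hsub hx)).1
            _ ≤ _ := Finset.sum_le_sum_of_subset_of_nonneg hsub fun _ _ _ => Nat.zero_le _
        rw [Finset.sum_const, Finset.card_pair hne'] at h3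
        simpa using h3
      · omega
    · set s2 := 1 - (starRingEnd ℂ) s with hs2
      have hs2m := hrefl s hs
      have him2 : s2.im = γ := by rw [hs2, ← him]; simp
      have hre2 : s2.re = 1 - s.re := by rw [hs2]; simp
      have h12 : s ≠ s2 := by
        intro h
        apply hre
        have := congrArg Complex.re h
        rw [hre2] at this
        linarith
      have hsub : ({s, s2} : Finset ℂ) ⊆ Z.filter fun s => s.im = γ := by
        intro x hx
        simp only [Finset.mem_insert, Finset.mem_singleton] at hx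
        rcases hx with rfl | rfl
        · exact h1
        · exact Finset.mem_filter.mpr ⟨(hmem _).mpr hs2m, him2⟩
      have h3 : ∑ x ∈ ({s, s2} : Finset ℂ), 1 ≤ M F Z γ := by
        unfold M
        calc ∑ x ∈ ({s, s2} : Finset ℂ), 1 ≤ ∑ x ∈ ({s, s2} : Finset ℂ), mult F x :=
              Finset.sum_le_sum fun x hx => hpos x (Finset.mem_filter.mp (hsub hx)).1
          _ ≤ _ := Finset.sum_le_sum_of_subset_of_nonneg hsub fun _ _ _ => Nat.zero_le _
      rw [Finset.sum_const, Finset.card_pair h12] at h3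
      simpa using h3
  · intro γ hA hB
    have hA' := (hGAm γ).mp hA
    have hnot : ¬ ∀ s ∈ zset F a b, s.im = γ → s = 1 / 2 + I * γ := fun h =>
      hB ((hGBm γ).mpr ⟨hA, h⟩)
    push Not at hnot
    obtain ⟨s1, hs1, him1, hne⟩ := hnot
    have hre1 : s1.re ≠ 1 / 2 := by
      intro h
      apply hne
      rw [← him1]; exact eq_half h
    set s2 := 1 - (starRingEnd ℂ) s1 with hs2
    have hs2m := hrefl s1 hs1
    have him2 : s2.im = γ := by rw [hs2, ← him1]; simp
    have hre2 : s2.re = 1 - s1.re := by rw [hs2]; simp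
    set s0 : ℂ := 1 / 2 + I * γ with hs0
    have h01 : s0 ≠ s1 := fun h => hne h.symm
    have h02 : s0 ≠ s2 := by
      intro h
      apply hre1
      have := congrArg Complex.re h
      rw [hs0, half_re, hre2] at this
      linarith
    have h12 : s1 ≠ s2 := by
      intro h
      apply hre1
      have := congrArg Complex.re h
      rw [hre2] at this
      linarith
    have hsub : ({s0, s1, s2} : Finset ℂ) ⊆ Z.filter fun s => s.im = γ := by
      intro x hx
      simp only [Finset.mem_insert, Finset.mem_singleton] at hx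
      rcases hx with rfl | rfl | rfl
      · exact Finset.mem_filter.mpr ⟨(hmem _).mpr hA'.1, half_im γ⟩
      · exact Finset.mem_filter.mpr ⟨(hmem _).mpr hs1, him1⟩
      · exact Finset.mem_filter.mpr ⟨(hmem _).mpr hs2m, him2⟩
    have hcard3 : ({s0, s1, s2} : Finset ℂ).card = 3 := by
      rw [Finset.card_insert_of_notMem (by simp [h01, h02]),
        Finset.card_insert_of_notMem (by simp [h12]), Finset.card_singleton]
    have h3 : ∑ x ∈ ({s0, s1, s2} : Finset ℂ), 1 ≤ M F Z γ := by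
      unfold M
      calc ∑ x ∈ ({s0, s1, s2} : Finset ℂ), 1 ≤ ∑ x ∈ ({s0, s1, s2} : Finset ℂ), mult F x :=
            Finset.sum_le_sum fun x hx => hpos x (Finset.mem_filter.mp (hsub hx)).1
        _ ≤ _ := Finset.sum_le_sum_of_subset_of_nonneg hsub fun _ _ _ => Nat.zero_le _
    rw [Finset.sum_const, hcard3] at h3
    simpa using h3

/-- **the count of the runs of isolated zeros in a window** -/
theorem irun_window (hF : GoodL F) {a b ρ w : ℝ} (ha : 1 ≤ a) (hab : a ≤ b) (hw : 0 ≤ w) (m : ℕ)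
    {L : ℝ} (hL : 0 < L) :
    (((isoSet F a (b - a) ρ w).ncard : ℝ) -
        m * ((NN F a b : ℝ) - (isoSet F a (b - a) ρ w).ncard) / 2 - 3 * m - m * (b - a) / L ≤
      ({t : ℝ | IRunA F ρ w m L a b t}.ncard : ℝ)) ∧
    (((isoSet F a (b - a) ρ w).ncard : ℝ) -
        (m + 1) * ((NN F a b : ℝ) - (isoSet F a (b - a) ρ w).ncard) / 2 - 3 * m - m * (b - a) / L ≤
      ({t : ℝ | IRunB F ρ w m L a b t}.ncard : ℝ)) := by
  classical
  obtain ⟨S, GA, GB, M, hS, hGA, hGB, hAS, hBA, hNN, hM1, hM2, hM3⟩ := core2 hF (b := b) ha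
  have hba : a + (b - a) = b := by ring
  have hSab : ∀ s ∈ S, a < s ∧ s ≤ b := by
    intro γ hγ
    obtain ⟨s, hs, h⟩ := (hS γ).mp hγ
    rw [← h]
    exact ⟨hs.2.2.1, hs.2.2.2.1⟩
  -- the isolated ones
  set G := GA.filter fun γ => Alone F ρ w γ with hG
  have hGm : ∀ γ : ℝ, γ ∈ G ↔ γ ∈ GA ∧ Alone F ρ w γ := fun γ => Finset.mem_filter
  have hGA' : G ⊆ GA := Finset.filter_subset _ _
  have hcard : G.card = (isoSet F a (b - a) ρ w).ncard := by
    rw [← Set.ncard_coe_finset]
    refine Set.ncard_congr (fun γ _ => (1 / 2 + I * (γ : ℂ))) ?_ ?_ ?_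
    · intro γ hγ
      obtain ⟨h1, h2⟩ := (hGm γ).mp hγ
      have h3 := (hGA γ).mp h1
      refine ⟨by rw [hba]; exact h3.1, half_re γ, h3.2, fun s' h4 h5 h6 h7 h8 => ?_⟩
      rw [half_im] at h8
      exact h2 s' h4 h5 h6 h7 h8
    · intro γ γ' _ _ h
      have := congrArg Complex.im h
      rwa [half_im, half_im] at this
    · rintro s ⟨h1, h2, h3, h4⟩
      rw [hba] at h1
      have h5 := eq_half h2
      refine ⟨s.im, ?_, h5.symm⟩
      show s.im ∈ G
      rw [hGm, hGA, ← h5]
      refine ⟨⟨h1, h3⟩, fun s' h6 h7 h8 h9 h10 => h4 s' h6 h7 h8 ?_ h10⟩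
      rwa [← h5] at h9
  -- an isolated point is at distance more than `ρ` from every ordinate of a simple critical zero
  have hfar : ∀ g ∈ G, ∀ γ ∈ GA, γ ≠ g → ρ < |γ - g| := by
    intro g hg γ hγ hne
    by_contra hcon
    push Not at hcon
    obtain ⟨h1, h2⟩ := (hGm g).mp hg
    have h3 := (hGA γ).mp hγ
    have h4 := h2 (1 / 2 + I * γ) h3.1.2.2.2.2 h3.1.1 h3.1.2.1 (fun h => hne (by
      have := congrArg Complex.im h
      rwa [half_im, half_im] at this)) (by rw [half_im]; exact hcon)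
    rw [half_re, sub_self, abs_zero] at h4
    linarith
  -- the partner of a zero which is not isolated
  have hpart : ∀ γ ∈ S, γ ∉ G → M γ ≤ 1 →
      (∃ s' ∈ S, s' ∉ G ∧ s' ≠ γ ∧ ∀ g ∈ G, ¬ (γ < g ∧ g < s') ∧ ¬ (s' < g ∧ g < γ)) ∨
      (∀ g ∈ G, g < γ) ∨ (∀ g ∈ G, γ < g) := by
    intro γ hγ hγG hMγ
    have hB : γ ∈ GB := by
      by_contra h
      have := hM2 γ hγ h
      omega
    have hA : γ ∈ GA := hBA hB
    have hnA : ¬ Alone F ρ w γ := fun h => hγG ((hGm γ).mpr ⟨hA, h⟩)
    unfold Alone at hnA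
    push Not at hnA
    obtain ⟨s, h1, h2, h3, h4, h5, h6⟩ := hnA
    have hfarγ : ∀ g ∈ G, ρ < |γ - g| := fun g hg => hfar g hg γ hA fun h => hγG (h ▸ hg)
    have hAS' := hSab γ hγ
    have h5' := abs_le.mp h5
    have hne : s.im ≠ γ := by
      intro h
      apply h4
      refine ((hGB γ).mp hB).2 s ⟨h2, h3, ?_, ?_, h1⟩ h
      · rw [h]; exact hAS'.1
      · rw [h]; exact hAS'.2
    -- nothing isolated between
    have hbet : ∀ g ∈ G, ¬ (γ < g ∧ g ≤ s.im) ∧ ¬ (s.im ≤ g ∧ g < γ) := by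
      intro g hg
      have h7 := hfarγ g hg
      constructor
      · rintro ⟨h8, h9⟩
        rw [abs_sub_comm, abs_of_pos (by linarith)] at h7
        linarith
      · rintro ⟨h8, h9⟩
        rw [abs_of_pos (by linarith)] at h7
        linarith
    by_cases hb : b < s.im
    · right; left
      intro g hg
      by_contra hcon
      push Not at hcon
      have h8 : γ < g := lt_of_le_of_ne hcon fun h => hγG (h ▸ hg)
      exact (hbet g hg).1 ⟨h8, ((hSab g (hAS (hGA' hg))).2.trans hb.le)⟩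
    · by_cases ha' : s.im ≤ a
      · right; right
        intro g hg
        by_contra hcon
        push Not at hcon
        have h8 : g < γ := lt_of_le_of_ne hcon fun h => hγG (h.symm ▸ hg)
        exact (hbet g hg).2 ⟨ha'.trans (hSab g (hAS (hGA' hg))).1.le, h8⟩
      · push Not at hb ha'
        left
        refine ⟨s.im, (hS _).mpr ⟨s, ⟨h2, h3, ha', hb, h1⟩, rfl⟩, fun h => ?_, hne, fun g hg =>
          ⟨fun h => (hbet g hg).1 ⟨h.1, h.2.le⟩, fun h => (hbet g hg).2 ⟨h.1.le, h.2⟩⟩⟩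
        have h7 := hfarγ _ h
        rw [abs_sub_comm] at h7
        linarith
  have hGcard : (G.card : ℝ) ≤ NN F a b := by
    have h1 : G.card ≤ NN F a b := by
      rw [hNN, Finset.card_eq_sum_ones]
      calc ∑ γ ∈ G, 1 ≤ ∑ γ ∈ G, M γ := by
            refine Finset.sum_le_sum fun γ hγ => ?_
            by_cases hB : γ ∈ GB
            · rw [hM1 γ hB]
            · have := hM2 γ (hAS (hGA' hγ)) hB
              omega
        _ ≤ _ := Finset.sum_le_sum_of_subset_of_nonneg (hGA'.trans hAS) fun _ _ _ => Nat.zero_le _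
    exact_mod_cast h1
  have hm : (0 : ℝ) ≤ m := Nat.cast_nonneg m
  rw [← hcard]
  constructor
  · -- runs of ordinates
    have h1 := count_blocks S G (hGA'.trans hAS) a b hSab hab m L hL M
      (by
        intro s hs
        rw [Finset.mem_sdiff] at hs
        by_cases hB : s ∈ GB
        · rw [hM1 s hB]
        · have := hM2 s hs.1 hB
          omega)
      (by
        intro s hs hw
        rw [Finset.mem_sdiff] at hs
        rcases hpart s hs.1 hs.2 hw with ⟨s', h1, h2, h3, h4⟩ | h | h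
        · exact Or.inl ⟨s', Finset.mem_sdiff.mpr ⟨h1, h2⟩, h3, h4⟩
        · exact Or.inr (Or.inl h)
        · exact Or.inr (Or.inr h))
    have hW : ((∑ s ∈ S \ G, M s : ℕ) : ℝ) ≤ (NN F a b : ℝ) - G.card := by
      have h2 : ∑ s ∈ S \ G, M s + G.card ≤ NN F a b := by
        rw [hNN, ← Finset.sum_sdiff (hGA'.trans hAS)]
        have h3 : G.card ≤ ∑ x ∈ G, M x := by
          rw [Finset.card_eq_sum_ones]
          refine Finset.sum_le_sum fun γ hγ => ?_
          by_cases hB : γ ∈ GB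
          · rw [hM1 γ hB]
          · have := hM2 γ (hAS (hGA' hγ)) hB
            omega
        omega
      have h3 : ((∑ s ∈ S \ G, M s : ℕ) : ℝ) + G.card ≤ (NN F a b : ℝ) := by exact_mod_cast h2
      linarith
    have h2 : {t : ℝ | Starts (S : Set ℝ) (G : Set ℝ) m L t}.ncard ≤
        {t : ℝ | IRunA F ρ w m L a b t}.ncard := by
      refine Set.ncard_le_ncard ?_ ((GA.finite_toSet).subset ?_)
      · rintro t ⟨u, h3, h4, h5, h6, h7⟩
        have hu : ∀ j, u j ∈ GA ∧ Alone F ρ w (u j) := fun j => (hGm (u j)).mp (h5 j)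
        refine ⟨u, h3, h4, ?_, ?_, fun j => ?_, fun s a1 a2 a3 a4 a5 => ?_, h7⟩
        · exact (hSab _ (hAS (hu 0).1)).1
        · exact (hSab _ (hAS (hu _).1)).2
        · have := (hGA (u j)).mp (hu j).1
          exact ⟨this.1.2.2.2.2, this.2, (hu j).2⟩
        · have hs : s ∈ zset F a b := ⟨a2, a3, lt_of_lt_of_le (hSab _ (hAS (hu 0).1)).1 a4,
            a5.trans (hSab _ (hAS (hu _).1)).2, a1⟩
          obtain ⟨j, hj⟩ := h6 s.im ((hS _).mpr ⟨s, hs, rfl⟩) a4 a5
          exact ⟨j, hj.symm⟩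
      · rintro t ⟨u, h3, h4, h5, h5', h6, -⟩
        have h7 := h6 0
        rw [Finset.mem_coe, hGA, ← h4]
        have h8 : u 0 ≤ u (Fin.last m) := h3.monotone (Fin.zero_le _)
        refine ⟨⟨by rw [half_re]; norm_num, by rw [half_re]; norm_num, by rw [half_im]; exact h5,
          by rw [half_im]; linarith, h7.1⟩, h7.2.1⟩
    have h3 : ({t : ℝ | Starts (S : Set ℝ) (G : Set ℝ) m L t}.ncard : ℝ) ≤
        ({t : ℝ | IRunA F ρ w m L a b t}.ncard : ℝ) := by exact_mod_cast h2
    have h4 := mul_le_mul_of_nonneg_left hW hm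
    linarith
  · -- pure runs
    set G' := G.filter fun γ => γ ∈ GB with hG'
    have hG'm : ∀ γ, γ ∈ G' ↔ γ ∈ G ∧ γ ∈ GB := fun γ => Finset.mem_filter
    have hG'G : G' ⊆ G := Finset.filter_subset _ _
    set W : ℝ → ℕ := fun γ => M γ - if γ ∈ G then 1 else 0 with hWdef
    have h1 := count_blocks S G' (hG'G.trans (hGA'.trans hAS)) a b hSab hab m L hL W
      (by
        intro s hs
        rw [Finset.mem_sdiff] at hs
        rw [hWdef]
        by_cases hG1 : s ∈ G
        · have hB : s ∉ GB := fun h => hs.2 ((hG'm s).mpr ⟨hG1, h⟩)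
          have := hM3 s (hGA' hG1) hB
          simp only [if_pos hG1]
          omega
        · simp only [if_neg hG1]
          by_cases hB : s ∈ GB
          · rw [hM1 s hB]
          · have := hM2 s hs.1 hB
            omega)
      (by
        intro s hs hw
        rw [Finset.mem_sdiff] at hs
        rw [hWdef] at hw
        by_cases hG1 : s ∈ G
        · have hB : s ∉ GB := fun h => hs.2 ((hG'm s).mpr ⟨hG1, h⟩)
          have := hM3 s (hGA' hG1) hB
          simp only [if_pos hG1] at hw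
          omega
        · simp only [if_neg hG1, Nat.sub_zero] at hw
          rcases hpart s hs.1 hG1 hw with ⟨s', h1, h2, h3, h4⟩ | h | h
          · exact Or.inl ⟨s', Finset.mem_sdiff.mpr ⟨h1, fun h => h2 (hG'G h)⟩, h3,
              fun g hg => h4 g (hG'G hg)⟩
          · exact Or.inr (Or.inl fun g hg => h g (hG'G hg))
          · exact Or.inr (Or.inr fun g hg => h g (hG'G hg)))
    have hMW : ∀ γ ∈ S, M γ = W γ + if γ ∈ G then 1 else 0 := by
      intro γ hγ
      rw [hWdef]
      by_cases hG1 : γ ∈ G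
      · simp only [if_pos hG1]
        by_cases hB : γ ∈ GB
        · have := hM1 γ hB
          omega
        · have := hM2 γ hγ hB
          omega
      · simp only [if_neg hG1]
        omega
    have hNW : NN F a b = ∑ s ∈ S, W s + G.card := by
      rw [hNN, Finset.sum_congr rfl hMW, Finset.sum_add_distrib, card_ite (hGA'.trans hAS)]
    have hW : ((∑ s ∈ S \ G', W s : ℕ) : ℝ) ≤ (NN F a b : ℝ) - G.card := by
      have h2 : ∑ s ∈ S \ G', W s ≤ ∑ s ∈ S, W s :=
        Finset.sum_le_sum_of_subset_of_nonneg Finset.sdiff_subset fun _ _ _ => Nat.zero_le _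
      have h3 : ∑ s ∈ S \ G', W s + G.card ≤ NN F a b := by omega
      have h4 : ((∑ s ∈ S \ G', W s : ℕ) : ℝ) + G.card ≤ (NN F a b : ℝ) := by exact_mod_cast h3
      linarith
    have hGG' : (G.card : ℝ) - ((NN F a b : ℝ) - G.card) / 2 ≤ G'.card := by
      have h2 : 2 * (G \ G').card ≤ ∑ s ∈ G \ G', W s := by
        rw [mul_comm, ← smul_eq_mul, ← Finset.sum_const]
        refine Finset.sum_le_sum fun s hs => ?_
        rw [Finset.mem_sdiff] at hs
        have hB : s ∉ GB := fun h => hs.2 ((hG'm s).mpr ⟨hs.1, h⟩)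
        have := hM3 s (hGA' hs.1) hB
        rw [hWdef]
        simp only [if_pos hs.1]
        omega
      have h3 : ∑ s ∈ G \ G', W s ≤ ∑ s ∈ S, W s :=
        Finset.sum_le_sum_of_subset_of_nonneg (Finset.sdiff_subset.trans (hGA'.trans hAS))
          fun _ _ _ => Nat.zero_le _
      have h4 : G.card = (G \ G').card + G'.card := by
        rw [Finset.card_sdiff_of_subset hG'G]
        have := Finset.card_le_card hG'G
        omega
      have h5 : 2 * G.card + G.card ≤ 2 * G'.card + NN F a b := by omega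
      have h6 : 2 * (G.card : ℝ) + G.card ≤ 2 * (G'.card : ℝ) + (NN F a b : ℝ) := by
        exact_mod_cast h5
      linarith
    have h2 : {t : ℝ | Starts (S : Set ℝ) (G' : Set ℝ) m L t}.ncard ≤
        {t : ℝ | IRunB F ρ w m L a b t}.ncard := by
      refine Set.ncard_le_ncard ?_ ((GA.finite_toSet).subset ?_)
      · rintro t ⟨u, h3, h4, h5, h6, h7⟩
        have hu : ∀ j, u j ∈ G ∧ u j ∈ GB := fun j => (hG'm (u j)).mp (h5 j)
        have hu' : ∀ j, u j ∈ GA ∧ Alone F ρ w (u j) := fun j => (hGm (u j)).mp (hu j).1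
        refine ⟨u, h3, h4, ?_, ?_, fun j => ?_, fun s a1 a2 a3 a4 a5 => ?_, h7⟩
        · exact (hSab _ (hAS (hu' 0).1)).1
        · exact (hSab _ (hAS (hu' _).1)).2
        · have := (hGA (u j)).mp (hu' j).1
          exact ⟨this.1.2.2.2.2, this.2, (hu' j).2⟩
        · have hs : s ∈ zset F a b := ⟨a2, a3, lt_of_lt_of_le (hSab _ (hAS (hu' 0).1)).1 a4,
            a5.trans (hSab _ (hAS (hu' _).1)).2, a1⟩
          obtain ⟨j, hj⟩ := h6 s.im ((hS _).mpr ⟨s, hs, rfl⟩) a4 a5
          exact ⟨j, ((hGB (u j)).mp (hu j).2).2 s hs hj.symm⟩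
      · rintro t ⟨u, h3, h4, h5, h5', h6, -⟩
        have h7 := h6 0
        rw [Finset.mem_coe, hGA, ← h4]
        have h8 : u 0 ≤ u (Fin.last m) := h3.monotone (Fin.zero_le _)
        refine ⟨⟨by rw [half_re]; norm_num, by rw [half_re]; norm_num, by rw [half_im]; exact h5,
          by rw [half_im]; linarith, h7.1⟩, h7.2.1⟩
    have h3 : ({t : ℝ | Starts (S : Set ℝ) (G' : Set ℝ) m L t}.ncard : ℝ) ≤
        ({t : ℝ | IRunB F ρ w m L a b t}.ncard : ℝ) := by exact_mod_cast h2
    have h4 := mul_le_mul_of_nonneg_left hW hm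
    linarith

end Pool.Agent.U73.RN
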