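import Pool.Agent.TH299.Runs

/-!
# Runs of good points: the bad points are counted in blocks

`S` is a finite set of reals in `(a, b]`, `G ⊆ S` the set of good points, `w` a weight on the bad
points with values at least one.  A maximal set of consecutive bad points is a block.  If every
block which does not touch an end of `(a, b]` has total weight at least two, there are at most
`W / 2 + 2` blocks, `W` the total weight of the bad points, and this number takes the place of the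
number of the bad points in the count of the runs.
-/

set_option autoImplicit false

namespace Pool.Agent.U73.RN

open Finset Pool.Agent.TH299.Runs

open scoped Classical in
/-- the first points of the blocks of bad points -/
noncomputable def reps (S G : Finset ℝ) : Finset ℝ :=
  (S \ G).filter fun s => ∀ s' ∈ S \ G, s' < s → ∃ g ∈ G, s' < g ∧ g < s

open scoped Classical in
/-- the block of `r` -/
noncomputable def blk (S G : Finset ℝ) (r : ℝ) : Finset ℝ :=
  (S \ G).filter fun s => r ≤ s ∧ ∀ g ∈ G, ¬ (r < g ∧ g < s)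

lemma mem_reps {S G : Finset ℝ} {s : ℝ} : s ∈ reps S G ↔
    s ∈ S \ G ∧ ∀ s' ∈ S \ G, s' < s → ∃ g ∈ G, s' < g ∧ g < s := by
  classical
  unfold reps
  exact Finset.mem_filter

lemma mem_blk {S G : Finset ℝ} {r s : ℝ} : s ∈ blk S G r ↔
    s ∈ S \ G ∧ r ≤ s ∧ ∀ g ∈ G, ¬ (r < g ∧ g < s) := by
  classical
  unfold blk
  exact Finset.mem_filter

lemma blk_disj {S G : Finset ℝ} {r r' : ℝ} (hr : r ∈ reps S G) (hr' : r' ∈ reps S G)
    (h : r < r') : Disjoint (blk S G r) (blk S G r') := by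
  rw [Finset.disjoint_left]
  intro s hs hs'
  rw [mem_blk] at hs hs'
  rw [mem_reps] at hr hr'
  obtain ⟨g, hg, h1, h2⟩ := hr'.2 r hr.1 h
  exact hs.2.2 g hg ⟨h1, lt_of_lt_of_le h2 hs'.2.1⟩

lemma blk_pairwise (S G : Finset ℝ) :
    ((reps S G : Finset ℝ) : Set ℝ).PairwiseDisjoint (blk S G) := by
  intro r hr r' hr' hne
  rcases lt_or_gt_of_ne hne with h | h
  · exact blk_disj hr hr' h
  · exact (blk_disj hr' hr h).symm

/-- the number of the blocks -/
theorem reps_card (S G : Finset ℝ) (w : ℝ → ℕ) (hw1 : ∀ s ∈ S \ G, 1 ≤ w s)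
    (hw2 : ∀ s ∈ S \ G, w s ≤ 1 →
      (∃ s' ∈ S \ G, s' ≠ s ∧ ∀ g ∈ G, ¬ (s < g ∧ g < s') ∧ ¬ (s' < g ∧ g < s)) ∨
      (∀ g ∈ G, g < s) ∨ (∀ g ∈ G, s < g)) :
    2 * (reps S G).card ≤ ∑ s ∈ S \ G, w s + 4 := by
  classical
  set R := reps S G with hR
  set E1 := R.filter fun r => ∀ g ∈ G, g < r with hE1
  set E2 := R.filter fun r => ∀ g ∈ G, r < g with hE2
  have hc1 : E1.card ≤ 1 := by
    rw [Finset.card_le_one]
    intro r hr r' hr'
    rw [hE1, Finset.mem_filter, hR] at hr hr'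
    by_contra hne
    rcases lt_or_gt_of_ne hne with h | h
    · obtain ⟨g, hg, h1, h2⟩ := (mem_reps.mp hr'.1).2 r (mem_reps.mp hr.1).1 h
      exact absurd (hr.2 g hg) (not_lt.mpr h1.le)
    · obtain ⟨g, hg, h1, h2⟩ := (mem_reps.mp hr.1).2 r' (mem_reps.mp hr'.1).1 h
      exact absurd (hr'.2 g hg) (not_lt.mpr h1.le)
  have hc2 : E2.card ≤ 1 := by
    rw [Finset.card_le_one]
    intro r hr r' hr'
    rw [hE2, Finset.mem_filter, hR] at hr hr'
    by_contra hne
    rcases lt_or_gt_of_ne hne with h | h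
    · obtain ⟨g, hg, h1, h2⟩ := (mem_reps.mp hr'.1).2 r (mem_reps.mp hr.1).1 h
      exact absurd (hr'.2 g hg) (not_lt.mpr h2.le)
    · obtain ⟨g, hg, h1, h2⟩ := (mem_reps.mp hr.1).2 r' (mem_reps.mp hr'.1).1 h
      exact absurd (hr.2 g hg) (not_lt.mpr h2.le)
  set R' := R \ (E1 ∪ E2) with hR'
  have hcard : R.card ≤ R'.card + 2 := by
    have h1 : R.card ≤ (E1 ∪ E2).card + R'.card := by
      have := Finset.le_card_sdiff (E1 ∪ E2) R
      rw [← hR'] at this
      omega
    have h2 := Finset.card_union_le E1 E2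
    omega
  have hblk : ∀ r ∈ R', 2 ≤ ∑ s ∈ blk S G r, w s := by
    intro r hr
    rw [hR', Finset.mem_sdiff, Finset.mem_union, not_or] at hr
    obtain ⟨hr0, hr1, hr2⟩ := hr
    have hrr := mem_reps.mp hr0
    have hself : r ∈ blk S G r := mem_blk.mpr ⟨hrr.1, le_rfl, fun g _ h => absurd (h.1.trans h.2)
      (lt_irrefl _)⟩
    by_cases hw : w r ≤ 1
    · rcases hw2 r hrr.1 hw with ⟨s', hs', hne, hg⟩ | h | h
      · rcases lt_or_gt_of_ne hne with h | h
        · obtain ⟨g, hgG, h1, h2⟩ := hrr.2 s' hs' h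
          exact absurd ⟨h1, h2⟩ (hg g hgG).2
        · have hs'b : s' ∈ blk S G r := mem_blk.mpr ⟨hs', h.le, fun g hgG hh => (hg g hgG).1 hh⟩
          have hsub : ({r, s'} : Finset ℝ) ⊆ blk S G r := by
            intro x hx
            rw [Finset.mem_insert, Finset.mem_singleton] at hx
            rcases hx with rfl | rfl
            · exact hself
            · exact hs'b
          calc 2 = ∑ x ∈ ({r, s'} : Finset ℝ), 1 := by
                rw [Finset.sum_const, Finset.card_pair hne.symm]; rfl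
            _ ≤ ∑ x ∈ ({r, s'} : Finset ℝ), w x := by
                refine Finset.sum_le_sum fun x hx => hw1 x ?_
                exact (mem_blk.mp (hsub hx)).1
            _ ≤ _ := Finset.sum_le_sum_of_subset_of_nonneg hsub fun _ _ _ => Nat.zero_le _
      · exact absurd (Finset.mem_filter.mpr ⟨hr0, h⟩) hr1
      · exact absurd (Finset.mem_filter.mpr ⟨hr0, h⟩) hr2
    · push Not at hw
      have := Finset.single_le_sum (f := fun s => w s) (fun _ _ => Nat.zero_le _) hself
      have h2 : w r ≤ ∑ s ∈ blk S G r, w s := this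
      omega
  have hsum : ∑ r ∈ R', ∑ s ∈ blk S G r, w s ≤ ∑ s ∈ S \ G, w s := by
    have hsubR : R' ⊆ R := Finset.sdiff_subset
    rw [← Finset.sum_biUnion]
    · refine Finset.sum_le_sum_of_subset_of_nonneg ?_ fun _ _ _ => Nat.zero_le _
      intro s hs
      rw [Finset.mem_biUnion] at hs
      obtain ⟨r, _, hs⟩ := hs
      exact (mem_blk.mp hs).1
    · intro r hr r' hr' hne
      exact blk_pairwise S G (hsubR hr) (hsubR hr') hne
  have h2 : R'.card * 2 ≤ ∑ r ∈ R', ∑ s ∈ blk S G r, w s := by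
    rw [← smul_eq_mul, ← Finset.sum_const]
    exact Finset.sum_le_sum hblk
  omega

/-- a point of `S` strictly between two good points, with no good point and no representative
strictly between them: impossible -/
lemma starts_reps {S G : Finset ℝ} {m : ℕ} {L t : ℝ}
    (h : Starts ((G ∪ reps S G : Finset ℝ) : Set ℝ) (G : Set ℝ) m L t) :
    Starts (S : Set ℝ) (G : Set ℝ) m L t := by
  classical
  obtain ⟨u, h1, h2, h3, h4, h5⟩ := h
  refine ⟨u, h1, h2, h3, fun s hs hs1 hs2 => ?_, h5⟩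
  by_cases hsG : s ∈ G
  · exact h4 s (by rw [Finset.coe_union]; exact Or.inl hsG) hs1 hs2
  · exfalso
    have hbad : s ∈ S \ G := Finset.mem_sdiff.mpr ⟨hs, hsG⟩
    -- the representative of the block of `s`
    set Bl := (S \ G).filter fun x => x ≤ s ∧ ∀ g ∈ G, ¬ (x < g ∧ g < s) with hBl
    have hne : Bl.Nonempty := ⟨s, Finset.mem_filter.mpr ⟨hbad, le_rfl, fun g _ hh =>
      absurd (hh.1.trans hh.2) (lt_irrefl _)⟩⟩
    set r := Bl.min' hne with hr
    have hrB : r ∈ Bl := Finset.min'_mem _ _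
    obtain ⟨hr1, hr2, hr3⟩ := Finset.mem_filter.mp hrB
    have hrrep : r ∈ reps S G := by
      rw [mem_reps]
      refine ⟨hr1, fun s' hs' hlt => ?_⟩
      by_contra hcon
      push Not at hcon
      have : s' ∈ Bl := by
        refine Finset.mem_filter.mpr ⟨hs', hlt.le.trans hr2, fun g hg hh => ?_⟩
        have h6 := hcon g hg hh.1
        rcases eq_or_lt_of_le h6 with h7 | h7
        · exact (Finset.mem_sdiff.mp hr1).2 (h7 ▸ hg)
        · exact hr3 g hg ⟨h7, hh.2⟩
      have := Finset.min'_le _ _ this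
      exact absurd hlt (not_lt.mpr this)
    have hu0 : u 0 < r := by
      by_contra hcon
      push Not at hcon
      have h6 : u 0 ∈ G := h3 0
      have hne1 : u 0 ≠ s := fun h => hsG (h ▸ h6)
      have hne2 : r ≠ u 0 := fun h => (Finset.mem_sdiff.mp hr1).2 (h.symm ▸ h6)
      exact hr3 _ h6 ⟨lt_of_le_of_ne hcon hne2, lt_of_le_of_ne hs1 hne1⟩
    obtain ⟨j, hj⟩ := h4 r (by rw [Finset.coe_union]; exact Or.inr hrrep) hu0.le (hr2.trans hs2)
    exact (Finset.mem_sdiff.mp hr1).2 (hj ▸ h3 j)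

/-- **the count of the runs, with the bad points counted in blocks** -/
theorem count_blocks (S G : Finset ℝ) (hG : G ⊆ S) (a b : ℝ) (hS : ∀ s ∈ S, a < s ∧ s ≤ b)
    (hab : a ≤ b) (m : ℕ) (L : ℝ) (hL : 0 < L) (w : ℝ → ℕ) (hw1 : ∀ s ∈ S \ G, 1 ≤ w s)
    (hw2 : ∀ s ∈ S \ G, w s ≤ 1 →
      (∃ s' ∈ S \ G, s' ≠ s ∧ ∀ g ∈ G, ¬ (s < g ∧ g < s') ∧ ¬ (s' < g ∧ g < s)) ∨
      (∀ g ∈ G, g < s) ∨ (∀ g ∈ G, s < g)) :
    (G.card : ℝ) - m * (((∑ s ∈ S \ G, w s : ℕ) : ℝ) / 2 + 3) - m * (b - a) / L ≤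
      ({t : ℝ | Starts (S : Set ℝ) (G : Set ℝ) m L t}.ncard : ℝ) := by
  classical
  set S' := G ∪ reps S G with hS'
  have hR : reps S G ⊆ S \ G := fun s hs => (mem_reps.mp hs).1
  have hS'S : S' ⊆ S := Finset.union_subset hG (hR.trans Finset.sdiff_subset)
  have h1 := count S' G Finset.subset_union_left a b (fun s hs => hS s (hS'S hs)) hab m L hL
  have h2 : S' \ G = reps S G := by
    rw [hS', Finset.union_sdiff_left]
    refine Finset.sdiff_eq_self_of_disjoint ?_
    rw [Finset.disjoint_left]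
    exact fun s hs hsG => (Finset.mem_sdiff.mp (hR hs)).2 hsG
  rw [h2] at h1
  have h3 : 2 * ((reps S G).card : ℝ) ≤ ((∑ s ∈ S \ G, w s : ℕ) : ℝ) + 4 := by
    exact_mod_cast reps_card S G w hw1 hw2
  have h4 : (m : ℝ) * (((reps S G).card : ℝ) + 1) ≤
      m * (((∑ s ∈ S \ G, w s : ℕ) : ℝ) / 2 + 3) :=
    mul_le_mul_of_nonneg_left (by linarith) (Nat.cast_nonneg m)
  have h5 : {t : ℝ | Starts (S' : Set ℝ) (G : Set ℝ) m L t}.ncard ≤
      {t : ℝ | Starts (S : Set ℝ) (G : Set ℝ) m L t}.ncard := by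
    refine Set.ncard_le_ncard (fun t ht => starts_reps ht) ?_
    refine (G.finite_toSet).subset ?_
    rintro t ⟨u, -, h6, h7, -⟩
    rw [← h6]
    exact h7 0
  have h6 : ({t : ℝ | Starts (S' : Set ℝ) (G : Set ℝ) m L t}.ncard : ℝ) ≤
      ({t : ℝ | Starts (S : Set ℝ) (G : Set ℝ) m L t}.ncard : ℝ) := by exact_mod_cast h5
  linarith

end Pool.Agent.U73.RN
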